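import Mathlib

/-! An elementary form of the theorem on noncyclic `p`-groups acting with the splitting condition:
if `P` is a finite `p`-group acting on a finite abelian group `V` without elements of order `p`,
`C` is a set such that for every `z ∈ P` there is `x` with `x z^j ∉ C` for all `j`, and
`∏_{i<p} x^i(v) = 1` for all `x ∉ C` and all `v ∈ V`, then `V` is trivial. -/

set_option autoImplicit false

namespace Pool.Agent.Run7.h520.FO

universe u v

open Finset

theorem prod_shift {V : Type v} [CommGroup V] (Z : Monoid.End V) (p i : ℕ) (v : V)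
    (hZ : ∀ v, (Z ^ p : Monoid.End V) v = v) :
    (Z ^ i : Monoid.End V) (∏ j ∈ range p, (Z ^ (i * j) : Monoid.End V) v)
      = ∏ j ∈ range p, (Z ^ (i * j) : Monoid.End V) v := by
  have hk : ∀ k : ℕ, ∀ v : V, (Z ^ (p * k) : Monoid.End V) v = v := by
    intro k
    induction k with
    | zero => intro v; rfl
    | succ k ih =>
      intro v
      have : (Z ^ (p * (k + 1)) : Monoid.End V) v = (Z ^ (p * k) : Monoid.End V) ((Z ^ p : Monoid.End V) v) := by
        rw [mul_add, mul_one, pow_add]; rfl
      rw [this, hZ, ih]
  have h1 := prod_range_succ (fun j => (Z ^ (i * j) : Monoid.End V) v) p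
  have h2 := prod_range_succ' (fun j => (Z ^ (i * j) : Monoid.End V) v) p
  rw [h1] at h2
  have h3 : (Z ^ (i * p) : Monoid.End V) v = v := by rw [mul_comm]; exact hk i v
  have h4 : (Z ^ (i * 0) : Monoid.End V) v = v := rfl
  rw [h3, h4] at h2
  have h5 := mul_right_cancel h2
  rw [map_prod]
  conv_rhs => rw [h5]
  apply prod_congr rfl
  intro j _
  have : (Z ^ (i * (j + 1)) : Monoid.End V) = (Z ^ i : Monoid.End V) * (Z ^ (i * j) : Monoid.End V) := by
    rw [← pow_add]; congr 1; ring
  rw [this]; rfl

theorem no_action {P : Type u} [Group P] [Finite P] (p : ℕ) [hp : Fact p.Prime] (hP : IsPGroup p P)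
    (C : Set P) (hC : ∀ z : P, ∃ x : P, ∀ j : ℕ, x * z ^ j ∉ C) :
    ∀ n : ℕ, ∀ (V : Type v) [CommGroup V] [Finite V] (ρ : P →* Monoid.End V), Nat.card V ≤ n →
      (∀ x ∉ C, ∀ v : V, ∏ i ∈ range p, ρ (x ^ i) v = 1) → (∀ v : V, v ^ p = 1 → v = 1) →
      ∀ v : V, v = 1 := by
  intro n
  induction n with
  | zero =>
    intro V _ _ ρ hn _ _ v
    have : 0 < Nat.card V := Nat.card_pos
    omega
  | succ n ih =>
    intro V _ _ ρ hn hs ht v
    -- the kernel of the action is a proper subgroup
    obtain ⟨x0, hx0⟩ := hC 1
    have hx0C : x0 ∉ C := by simpa using hx0 0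
    by_cases hker : ρ.ker = ⊤
    · have : ∀ i, ρ (x0 ^ i) v = v := fun i => by
        have h : x0 ^ i ∈ ρ.ker := by rw [hker]; exact Subgroup.mem_top _
        rw [MonoidHom.mem_ker] at h
        rw [h]; rfl
      have h2 := hs x0 hx0C v
      simp only [this, prod_const, card_range] at h2
      exact ht v h2
    · have hne : Nontrivial (P ⧸ ρ.ker) := QuotientGroup.nontrivial_iff.mpr hker
      have hQ : IsPGroup p (P ⧸ ρ.ker) := hP.to_quotient _
      have hcn : Nontrivial (Subgroup.center (P ⧸ ρ.ker)) := hQ.center_nontrivial
      have hcp : IsPGroup p (Subgroup.center (P ⧸ ρ.ker)) := hQ.to_subgroup _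
      have hdvd : p ∣ Nat.card (Subgroup.center (P ⧸ ρ.ker)) := by
        obtain ⟨m, hm0, hm⟩ := hcp.nontrivial_iff_card.mp hcn
        rw [hm]; exact dvd_pow_self p hm0.ne'
      obtain ⟨⟨zb, hzb⟩, hzo⟩ := exists_prime_orderOf_dvd_card' p hdvd
      obtain ⟨z, rfl⟩ := QuotientGroup.mk_surjective zb
      have hzo' : orderOf (z : P ⧸ ρ.ker) = p := by
        rw [← hzo]; exact (Subgroup.orderOf_mk (z : P ⧸ ρ.ker) hzb).symm
      have hz1 : ρ z ≠ 1 := by
        intro h
        have h1 : (z : P ⧸ ρ.ker) = 1 := (QuotientGroup.eq_one_iff z).mpr h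
        rw [h1, orderOf_one] at hzo'
        exact hp.out.one_lt.ne hzo'
      have hzp : ρ z ^ p = 1 := by
        have h1 : (z : P ⧸ ρ.ker) ^ p = 1 := by rw [← hzo']; exact pow_orderOf_eq_one _
        rw [← QuotientGroup.mk_pow, QuotientGroup.eq_one_iff, MonoidHom.mem_ker, map_pow] at h1
        exact h1
      have hzc : ∀ y, ρ z * ρ y = ρ y * ρ z := by
        intro y
        have h1 := (Subgroup.mem_center_iff.mp hzb) (y : P ⧸ ρ.ker)
        rw [← QuotientGroup.mk_mul, ← QuotientGroup.mk_mul, QuotientGroup.eq] at h1
        have h2 : ρ ((y * z)⁻¹ * (z * y)) = 1 := h1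
        have h3 : ρ (z * y) = ρ (y * z) := by
          have : z * y = (y * z) * ((y * z)⁻¹ * (z * y)) := by group
          rw [this, map_mul, h2, mul_one]
        rw [← map_mul, ← map_mul, h3]
      -- the fixed points of `z`
      let U : Subgroup V :=
        { carrier := {w | ρ z w = w}
          one_mem' := map_one _
          mul_mem' := by
            intro a b ha hb
            show ρ z (a * b) = a * b
            rw [map_mul]
            rw [show ρ z a = a from ha, show ρ z b = b from hb]
          inv_mem' := by
            intro a ha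
            show ρ z a⁻¹ = a⁻¹
            rw [map_inv, show ρ z a = a from ha] }
      have hUm : ∀ w, w ∈ U ↔ ρ z w = w := fun w => Iff.rfl
      have hUi : ∀ y : P, ∀ w ∈ U, ρ y w ∈ U := by
        intro y w hw
        rw [hUm] at hw ⊢
        have h1 : ρ z (ρ y w) = ρ y (ρ z w) := by
          have := congrArg (fun g : Monoid.End V => g w) (hzc y)
          exact this
        rw [h1, hw]
      let ρ' : P →* Monoid.End U :=
        { toFun := fun y =>
            { toFun := fun w => ⟨ρ y w, hUi y w w.2⟩
              map_one' := by apply Subtype.ext; exact map_one _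
              map_mul' := by intro a b; apply Subtype.ext; exact map_mul _ _ _ }
          map_one' := by
            apply MonoidHom.ext
            intro w
            apply Subtype.ext
            show ρ 1 (w : V) = w
            rw [map_one]; rfl
          map_mul' := by
            intro a b
            apply MonoidHom.ext
            intro w
            apply Subtype.ext
            show ρ (a * b) (w : V) = ρ a (ρ b w)
            rw [map_mul]; rfl }
      have hρ' : ∀ y (w : U), ((ρ' y w : U) : V) = ρ y w := fun y w => rfl
      have hcard : Nat.card U ≤ n := by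
        have h1 : U ≠ ⊤ := by
          intro h
          apply hz1
          apply MonoidHom.ext
          intro w
          have : w ∈ U := by rw [h]; exact Subgroup.mem_top w
          exact this
        have h2 : Nat.card U < Nat.card V := by
          have h3 := Subgroup.card_le_card_group U
          rcases h3.lt_or_eq with h4 | h4
          · exact h4
          · exact absurd (Subgroup.eq_top_of_card_eq U h4) h1
        omega
      have hU1 : ∀ w ∈ U, w = 1 := by
        intro w hw
        have := ih U ρ' hcard (by
          intro x hx u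
          apply Subtype.ext
          have h1 := hs x hx (u : V)
          rw [Subgroup.val_finsetProd]
          exact h1) (by
          intro u hu
          apply Subtype.ext
          apply ht
          have := congrArg Subtype.val hu
          simpa using this) ⟨w, hw⟩
        exact congrArg Subtype.val this
      obtain ⟨x, hx⟩ := hC z
      have hpow : ∀ i j : ℕ, ∀ w : V, ρ ((x * z ^ j) ^ i) w = ρ (x ^ i) ((ρ z ^ (i * j) : Monoid.End V) w) := by
        intro i j w
        have h1 : ρ ((x * z ^ j) ^ i) = ρ (x ^ i) * ρ z ^ (i * j) := by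
          rw [map_pow, map_mul, map_pow]
          have hcomm : Commute (ρ x) (ρ z ^ j) := Commute.pow_right (show Commute (ρ x) (ρ z) from (hzc x).symm) j
          rw [hcomm.mul_pow, ← pow_mul, map_pow, mul_comm j i]
        rw [h1]; rfl
      have hy : ∀ i ∈ range p, i ≠ 0 → ∏ j ∈ range p, (ρ z ^ (i * j) : Monoid.End V) v = 1 := by
        intro i hi hi0
        apply hU1
        rw [hUm]
        set y := ∏ j ∈ range p, (ρ z ^ (i * j) : Monoid.End V) v with hydef
        have h1 : (ρ z ^ i : Monoid.End V) y = y :=
          prod_shift (ρ z) p i v (fun w => by rw [hzp]; rfl)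
        have hcop : Nat.Coprime i p := by
          rw [Nat.coprime_comm, Nat.Prime.coprime_iff_not_dvd hp.out]
          exact Nat.not_dvd_of_pos_of_lt (Nat.pos_of_ne_zero hi0) (mem_range.mp hi)
        obtain ⟨k, hk⟩ : ∃ k : ℕ, i * k ≡ 1 [MOD p] := by
          obtain ⟨k, hk⟩ := Nat.exists_mul_mod_eq_one_of_coprime hcop hp.out.one_lt
          exact ⟨k, by rw [Nat.ModEq, hk.2, Nat.mod_eq_of_lt hp.out.one_lt]⟩
        have h2 : ∀ k : ℕ, (ρ z ^ (i * k) : Monoid.End V) y = y := by
          intro k
          induction k with
          | zero => rfl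
          | succ k ihk =>
            have : (ρ z ^ (i * (k + 1)) : Monoid.End V) = (ρ z ^ (i * k)) * (ρ z ^ i) := by
              rw [← pow_add]; congr 1
            rw [this]
            show (ρ z ^ (i * k) : Monoid.End V) ((ρ z ^ i : Monoid.End V) y) = y
            rw [h1, ihk]
        have h3 : ρ z ^ (i * k) = ρ z := by
          have h4 : ρ z ^ (i * k) = ρ z ^ ((i * k) % p) := pow_eq_pow_mod _ hzp
          rw [h4, hk, Nat.mod_eq_of_lt hp.out.one_lt, pow_one]
        have h5 := h2 k
        rw [h3] at h5
        exact h5
      have hmain : ∏ j ∈ range p, ∏ i ∈ range p, ρ ((x * z ^ j) ^ i) v = 1 :=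
        prod_eq_one (fun j _ => hs _ (hx j) v)
      rw [prod_comm] at hmain
      have hmain2 : ∏ i ∈ range p, ρ (x ^ i) (∏ j ∈ range p, (ρ z ^ (i * j) : Monoid.End V) v) = 1 := by
        rw [← hmain]
        apply prod_congr rfl
        intro i _
        rw [map_prod]
        apply prod_congr rfl
        intro j _
        rw [hpow]
      rw [prod_eq_single_of_mem 0 (mem_range.mpr hp.out.pos) (by
        intro i hi hi0
        rw [hy i hi hi0, map_one])] at hmain2
      have h6 : ∏ j ∈ range p, (ρ z ^ (0 * j) : Monoid.End V) v = v ^ p := by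
        have : ∀ j, (ρ z ^ (0 * j) : Monoid.End V) v = v := fun j => by rw [zero_mul]; rfl
        simp only [this, prod_const, card_range]
      rw [h6, pow_zero, map_one] at hmain2
      exact ht v hmain2

end Pool.Agent.Run7.h520.FO
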