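import Pool.Agent.Run7.h520.FO.Nil

set_option autoImplicit false

namespace Pool.Agent.Run7.h520.FO

universe u v

/-- the normal closure of the relators `v^n`, `v` of full order -/
def relSub (X : Type u) (n : ℕ) : Subgroup (FreeGroup X) :=
  Subgroup.normalClosure ((fun v : FreeGroup X => v ^ n) '' {v | Full X n v})

instance (X : Type u) (n : ℕ) : (relSub X n).Normal := by unfold relSub; infer_instance

theorem relSub_le (X : Type u) (n : ℕ) : relSub X n ≤ powSub X n := by
  apply Subgroup.normalClosure_mono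
  rintro _ ⟨v, _, rfl⟩
  exact ⟨v, rfl⟩

theorem powSub_le_of {X : Type u} {n : ℕ} (h : ∀ w : FreeGroup X, w ^ n ∈ relSub X n) :
    relSub X n = powSub X n := by
  apply le_antisymm (relSub_le X n)
  apply Subgroup.normalClosure_le_normal
  rintro _ ⟨w, rfl⟩
  exact h w

theorem mem_relSub {X : Type u} {n : ℕ} {v : FreeGroup X} (h : Full X n v) : v ^ n ∈ relSub X n :=
  Subgroup.subset_normalClosure ⟨v, h, rfl⟩

theorem full_prime {X : Type u} {p : ℕ} (hp : p.Prime) {v : FreeGroup X} (h : v ∉ powSub X p) :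
    Full X p v := by
  intro d hd hdp
  rcases (Nat.dvd_prime hp).mp hd with h1 | h1
  · rw [h1, pow_one]; exact h
  · exact absurd h1 hdp

theorem rel_subsingleton (X : Type u) [Nonempty X] [Subsingleton X] (n : ℕ) :
    relSub X n = powSub X n := by
  apply powSub_le_of
  obtain ⟨x⟩ := ‹Nonempty X›
  intro w
  have hw : w ∈ Subgroup.zpowers (FreeGroup.of x) := by
    induction w using FreeGroup.induction_on with
    | C1 => exact one_mem _
    | of y => rw [Subsingleton.elim y x]; exact Subgroup.mem_zpowers _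
    | inv_of y ih => exact inv_mem ih
    | mul a b ha hb => exact mul_mem ha hb
  obtain ⟨k, rfl⟩ := Subgroup.mem_zpowers_iff.mp hw
  have : (FreeGroup.of x ^ k) ^ n = (FreeGroup.of x ^ n) ^ k := by
    rw [← zpow_natCast, ← zpow_natCast, ← zpow_mul, ← zpow_mul, mul_comm]
  rw [this]
  exact zpow_mem (mem_relSub (full_of x)) k

theorem rel_one (X : Type u) : relSub X 1 = powSub X 1 := by
  apply powSub_le_of
  intro w
  apply mem_relSub
  intro d hd hd1
  exact absurd (Nat.dvd_one.mp hd) hd1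

/-- elements outside `F^n`: detected by the exponent sum -/
theorem not_mem_of_ex {X : Type u} {n : ℕ} (x : X) {v : FreeGroup X} (h : ex n x v ≠ 1) :
    v ∉ powSub X n := fun hm => h (powSub_le_ker n x hm)

theorem mul_not_mem {X : Type u} {n : ℕ} {g w : FreeGroup X} (hg : g ∉ powSub X n)
    (hw : w ∈ powSub X n) : g * w ∉ powSub X n := fun h => hg (by
  have := mul_mem h (inv_mem hw)
  rwa [mul_inv_cancel_right] at this)

theorem mul_not_mem' {X : Type u} {n : ℕ} {g w : FreeGroup X} (hg : g ∉ powSub X n)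
    (hw : w ∈ powSub X n) : w * g ∉ powSub X n := fun h => hg (by
  have := mul_mem (inv_mem hw) h
  rwa [inv_mul_cancel_left] at this)

theorem rel_two (X : Type u) (x y : X) (hxy : x ≠ y) : relSub X 2 = powSub X 2 := by
  apply powSub_le_of
  intro w
  by_cases hw : w ∈ powSub X 2
  swap
  · exact mem_relSub (full_prime Nat.prime_two hw)
  have hA : FreeGroup.of x ∉ powSub X 2 := not_mem_of_ex x (by rw [ex_self]; decide)
  have hB : FreeGroup.of y ∉ powSub X 2 := not_mem_of_ex y (by rw [ex_self]; decide)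
  have hAB : FreeGroup.of x * FreeGroup.of y ∉ powSub X 2 := not_mem_of_ex x (by
    rw [map_mul, ex_self, ex_other 2 hxy.symm, mul_one]; decide)
  have hsq : ∀ g : FreeGroup X, g ∉ powSub X 2 → (g : FreeGroup X ⧸ relSub X 2) ^ 2 = 1 := by
    intro g hg
    rw [← QuotientGroup.mk_pow, QuotientGroup.eq_one_iff]
    exact mem_relSub (full_prime Nat.prime_two hg)
  have h1 := hsq _ hA
  have h2 := hsq _ hB
  have h3 := hsq _ hAB
  have h4 := hsq _ (mul_not_mem hA hw)
  have h5 := hsq _ (mul_not_mem hB hw)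
  have h6 := hsq _ (mul_not_mem hAB hw)
  rw [← QuotientGroup.eq_one_iff, QuotientGroup.mk_pow]
  simp only [QuotientGroup.mk_mul] at h3 h4 h5 h6
  generalize (FreeGroup.of x : FreeGroup X ⧸ relSub X 2) = A at *
  generalize (FreeGroup.of y : FreeGroup X ⧸ relSub X 2) = B at *
  generalize (w : FreeGroup X ⧸ relSub X 2) = W at *
  rw [pow_two] at h1 h2 h3 h4 h5 h6
  have a1 : A⁻¹ = A := inv_eq_of_mul_eq_one_left h1
  have b1 : B⁻¹ = B := inv_eq_of_mul_eq_one_left h2
  have c1 : A * B = B * A := by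
    have : (A * B)⁻¹ = A * B := inv_eq_of_mul_eq_one_left h3
    rw [mul_inv_rev, a1, b1] at this
    exact this.symm
  have h4' : A * W * A = W⁻¹ := by
    apply eq_inv_of_mul_eq_one_left; rw [← h4]; group
  have h5' : B * W * B = W⁻¹ := by
    apply eq_inv_of_mul_eq_one_left; rw [← h5]; group
  have h6' : (A * B) * W * (A * B) = W⁻¹ := by
    apply eq_inv_of_mul_eq_one_left; rw [← h6]; group
  have h7 : (A * B) * W * (A * B) = W := by
    calc (A * B) * W * (A * B) = A * (B * W * B) * A := by rw [c1]; nth_rewrite 1 [← c1]; group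
      _ = A * W⁻¹ * A := by rw [h5']
      _ = (A⁻¹ * W * A⁻¹)⁻¹ := by group
      _ = W := by rw [a1, h4', inv_inv]
  rw [h7] at h6'
  rw [pow_two]
  nth_rewrite 1 [h6']
  exact inv_mul_cancel W

/-- the algebra of the case `n = 3`: four elements acting without norm -/
theorem three_eq_zero {R : Type v} [Ring R] {a b b' : R} (hb : b * b' = 1)
    (h1 : a * a + a + 1 = 0) (h2 : b * b + b + 1 = 0)
    (h3 : (a * b) * (a * b) + a * b + 1 = 0) (h4 : (a * b') * (a * b') + a * b' + 1 = 0) :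
    (3 : R) = 0 := by
  have e : b' = -1 - b := by
    have : (b * b + b + 1) * b' = 0 := by rw [h2, zero_mul]
    have h5 : b * (b * b') + b * b' + b' = 0 := by
      rw [← this]; noncomm_ring
    rw [hb, mul_one] at h5
    have : b' = -(b + 1) := by
      rw [eq_neg_iff_add_eq_zero, add_comm]; exact h5
    rw [this]; noncomm_ring
  subst e
  have E2 : a * b * a - (1 + 2 * a + b + 3 * (a * b)) = 0 := by
    linear_combination (norm := noncomm_ring) h4 - h1 - h1 * b - h3
  have E3 : 3 * a = 0 := by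
    have t1 : (a * b * a - (1 + 2 * a + b + 3 * (a * b))) * b = 0 := by rw [E2, zero_mul]
    have t2 : 3 * a * (b * b + b + 1) = 0 := by rw [h2, mul_zero]
    linear_combination (norm := noncomm_ring) -h3 + t1 + h2 + t2
  have E4 : a * (-(a + 1)) = 1 := by
    linear_combination (norm := noncomm_ring) -h1
  calc (3 : R) = 3 * (a * (-(a + 1))) := by rw [E4, mul_one]
    _ = (3 * a) * (-(a + 1)) := by noncomm_ring
    _ = 0 := by rw [E3, zero_mul]

/-- An abelian normal subgroup on which `a`, `b`, `a b`, `a b⁻¹` have norm zero has exponent `3`. -/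
theorem cube_of_norm {G : Type v} [Group G] (A : Subgroup G) [hAn : A.Normal]
    (hc : ∀ s ∈ A, ∀ t ∈ A, s * t = t * s) (a b : G)
    (H : ∀ g : G, (g = a ∨ g = b ∨ g = a * b ∨ g = a * b⁻¹) → ∀ z ∈ A,
      (g * (g * z * g⁻¹) * g⁻¹) * (g * z * g⁻¹) * z = 1) : ∀ z ∈ A, z ^ 3 = 1 := by
  letI : CommGroup A := { (inferInstance : Group A) with
    mul_comm := fun s t => Subtype.ext (hc s.1 s.2 t.1 t.2) }
  let φ : G → AddMonoid.End (Additive A) := fun g =>
    (MonoidHom.toAdditive (MulAut.conjNormal (H := A) g).toMonoidHom)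
  have φmul : ∀ g h, φ (g * h) = φ g * φ h := by
    intro g h
    apply AddMonoidHom.ext
    intro z
    show Additive.ofMul (MulAut.conjNormal (H := A) (g * h) (Additive.toMul z)) = _
    rw [map_mul]
    rfl
  have φone : φ 1 = 1 := by
    apply AddMonoidHom.ext
    intro z
    show Additive.ofMul (MulAut.conjNormal (H := A) 1 (Additive.toMul z)) = _
    rw [map_one]
    rfl
  have φnorm : ∀ g : G, (g = a ∨ g = b ∨ g = a * b ∨ g = a * b⁻¹) → φ g * φ g + φ g + 1 = 0 := by
    intro g hg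
    apply AddMonoidHom.ext
    intro z
    apply Additive.toMul.injective
    apply Subtype.ext
    exact H g hg (Additive.toMul z : A) (Additive.toMul z : A).2
  have three := three_eq_zero (R := AddMonoid.End (Additive A)) (a := φ a) (b := φ b) (b' := φ b⁻¹)
    (by rw [← φmul, mul_inv_cancel, φone]) (φnorm _ (Or.inl rfl)) (φnorm _ (Or.inr (Or.inl rfl)))
    (by rw [← φmul]; exact φnorm _ (Or.inr (Or.inr (Or.inl rfl))))
    (by rw [← φmul]; exact φnorm _ (Or.inr (Or.inr (Or.inr rfl))))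
  intro z hz
  have e1 : (3 : AddMonoid.End (Additive A)) (Additive.ofMul (⟨z, hz⟩ : A)) = 0 := by
    rw [three]; rfl
  have e2 : (3 : ℕ) • (Additive.ofMul (⟨z, hz⟩ : A)) = 0 := by
    rw [← e1]
    rw [show (3 : AddMonoid.End (Additive A)) = ((3 : ℕ) : AddMonoid.End (Additive A)) by norm_cast]
    rw [AddMonoid.End.natCast_apply]
  have e3 : (⟨z, hz⟩ : A) ^ 3 = 1 := congrArg Additive.toMul e2
  exact congrArg Subtype.val e3

theorem rel_three (X : Type u) (x y : X) (hxy : x ≠ y) : relSub X 3 = powSub X 3 := by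
  apply powSub_le_of
  intro w
  by_cases hw : w ∈ powSub X 3
  swap
  · exact mem_relSub (full_prime Nat.prime_three hw)
  have hA : FreeGroup.of x ∉ powSub X 3 := not_mem_of_ex x (by rw [ex_self]; decide)
  have hB : FreeGroup.of y ∉ powSub X 3 := not_mem_of_ex y (by rw [ex_self]; decide)
  have hAB : FreeGroup.of x * FreeGroup.of y ∉ powSub X 3 := not_mem_of_ex x (by
    rw [map_mul, ex_self, ex_other 3 hxy.symm, mul_one]; decide)
  have hAB' : FreeGroup.of x * (FreeGroup.of y)⁻¹ ∉ powSub X 3 := not_mem_of_ex x (by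
    rw [map_mul, map_inv, ex_self, ex_other 3 hxy.symm, inv_one, mul_one]; decide)
  -- cubes of elements outside
  have cu : ∀ g : FreeGroup X, g ∉ powSub X 3 → (g : FreeGroup X ⧸ relSub X 3) ^ 3 = 1 := by
    intro g hg
    rw [← QuotientGroup.mk_pow, QuotientGroup.eq_one_iff]
    exact mem_relSub (full_prime Nat.prime_three hg)
  -- the norm relation
  have nr : ∀ g : FreeGroup X, g ∉ powSub X 3 → ∀ u ∈ powSub X 3,
      ∀ C U : FreeGroup X ⧸ relSub X 3, C = g → U = u →
      (C * U * C⁻¹) * (C * C * U * C⁻¹ * C⁻¹) * U = 1 := by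
    intro g hg u hu C U hC hU
    have h1 := cu g hg
    have h2 := cu (g * u) (mul_not_mem hg hu)
    rw [QuotientGroup.mk_mul, ← hC, ← hU] at h2
    rw [← hC] at h1
    have e3 : C⁻¹ * C⁻¹ * C⁻¹ = 1 := by
      rw [← inv_inj, inv_one, ← h1]; group
    calc (C * U * C⁻¹) * (C * C * U * C⁻¹ * C⁻¹) * U
        = (C * U) * (C * U) * (C⁻¹ * C⁻¹ * C⁻¹) * (C * U) := by group
      _ = (C * U) ^ 3 := by rw [e3, mul_one, pow_three']
      _ = 1 := h2
  have inv_nm : ∀ g : FreeGroup X, g ∉ powSub X 3 → g⁻¹ ∉ powSub X 3 := fun g hg h =>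
    hg (by simpa using inv_mem h)
  -- commutation with the conjugates outside
  have co : ∀ g : FreeGroup X, g ∉ powSub X 3 → ∀ u ∈ powSub X 3,
      ∀ C U : FreeGroup X ⧸ relSub X 3, C = g → U = u →
      U * (C * U * C⁻¹) = (C * U * C⁻¹) * U := by
    intro g hg u hu C U hC hU
    have h1 := nr g hg u hu C U hC hU
    have h2 := nr g⁻¹ (inv_nm g hg) u hu C⁻¹ U (by rw [hC]; rfl) hU
    have h3 := cu g hg
    rw [← hC] at h3
    rw [inv_inv] at h2
    -- `C⁻¹ = C C`
    have e : C⁻¹ = C * C := by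
      apply inv_eq_of_mul_eq_one_left; rw [← h3, pow_three']
    -- second: (C⁻¹ U C)(C⁻¹ C⁻¹ U C C) U = 1
    have s1 : C * C * U * C⁻¹ * C⁻¹ = C⁻¹ * U * C := by
      have e' : C = C⁻¹ * C⁻¹ := by
        rw [← inv_inj, mul_inv_rev, inv_inv]; exact e
      calc C * C * U * C⁻¹ * C⁻¹ = (C * C) * U * (C⁻¹ * C⁻¹) := by group
        _ = C⁻¹ * U * C := by rw [← e, ← e']
    have s2 : C⁻¹ * C⁻¹ * U * C * C = C * U * C⁻¹ := by
      have e' : C = C⁻¹ * C⁻¹ := by
        rw [← inv_inj, mul_inv_rev, inv_inv]; exact e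
      calc C⁻¹ * C⁻¹ * U * C * C = (C⁻¹ * C⁻¹) * U * (C * C) := by group
        _ = C * U * C⁻¹ := by rw [← e, ← e']
    rw [s1] at h1
    rw [s2] at h2
    -- h1 : (C U C⁻¹) (C⁻¹ U C) U = 1, h2 : (C⁻¹ U C) (C U C⁻¹) U = 1
    have k1 : (C⁻¹ * U * C) * U * (C * U * C⁻¹) = 1 := by
      have : (C * U * C⁻¹)⁻¹ = (C⁻¹ * U * C) * U := by
        rw [eq_comm]; apply eq_inv_of_mul_eq_one_right; rw [← mul_assoc]; exact h1
      rw [← this]; group
    have k2 : (C⁻¹ * U * C) * (U * (C * U * C⁻¹)) = (C⁻¹ * U * C) * ((C * U * C⁻¹) * U) := by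
      rw [← mul_assoc, k1, ← mul_assoc, h2]
    exact mul_left_cancel k2
  -- commutation with all conjugates
  have call : ∀ g : FreeGroup X, ∀ C : FreeGroup X ⧸ relSub X 3, C = g → ∀ u ∈ powSub X 3,
      ∀ W : FreeGroup X ⧸ relSub X 3, W = u →
      W * (C * W * C⁻¹) = (C * W * C⁻¹) * W := by
    intro g C hC u hu W hW
    by_cases hg : g ∈ powSub X 3
    swap
    · exact co g hg u hu C W hC hW
    set D : FreeGroup X ⧸ relSub X 3 := QuotientGroup.mk (FreeGroup.of x) with hD
    have h1 := nr _ hA u hu D W hD hW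
    have c1 := co (g * FreeGroup.of x) (mul_not_mem' hA hg) u hu (C * D) W
      (by rw [hC, hD]; rfl) hW
    have hA2 : FreeGroup.of x * FreeGroup.of x ∉ powSub X 3 := not_mem_of_ex x (by
      rw [map_mul, ex_self]; decide)
    have c2 := co (g * (FreeGroup.of x * FreeGroup.of x)) (mul_not_mem' hA2 hg) u hu (C * (D * D)) W
      (by rw [hC, hD]; rfl) hW
    have hWi : W⁻¹ = (D * W * D⁻¹) * (D * D * W * D⁻¹ * D⁻¹) := by
      rw [eq_comm]; exact eq_inv_of_mul_eq_one_left h1
    have e1 : C * W⁻¹ * C⁻¹ = ((C * D) * W * (C * D)⁻¹) * ((C * (D * D)) * W * (C * (D * D))⁻¹) := by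
      rw [hWi]; group
    have c3 : Commute W (C * W⁻¹ * C⁻¹) := by
      rw [e1]
      exact Commute.mul_right c1 c2
    have c4 : Commute W (C * W * C⁻¹) := by
      have := c3.inv_right
      rwa [show (C * W⁻¹ * C⁻¹)⁻¹ = C * W * C⁻¹ by group] at this
    exact c4
  -- the normal closure of `w` in the quotient is commutative
  rw [← QuotientGroup.eq_one_iff, QuotientGroup.mk_pow]
  set W : FreeGroup X ⧸ relSub X 3 := (w : FreeGroup X ⧸ relSub X 3) with hWdef
  let S : Set (FreeGroup X ⧸ relSub X 3) := Group.conjugatesOfSet {W}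
  have hS : ∀ s ∈ S, ∃ C : FreeGroup X ⧸ relSub X 3, C * W * C⁻¹ = s := by
    intro s hs
    obtain ⟨t, ht, hc⟩ := Group.mem_conjugatesOfSet_iff.mp hs
    rw [Set.mem_singleton_iff.mp ht] at hc
    exact isConj_iff.mp hc
  have hcomm : ∀ s ∈ S, ∀ t ∈ S, s * t = t * s := by
    intro s hs t ht
    obtain ⟨C, rfl⟩ := hS s hs
    obtain ⟨D, rfl⟩ := hS t ht
    obtain ⟨g, hg⟩ := QuotientGroup.mk_surjective (C⁻¹ * D)
    have := call g (C⁻¹ * D) hg.symm w hw W rfl
    calc (C * W * C⁻¹) * (D * W * D⁻¹) = C * (W * ((C⁻¹ * D) * W * (C⁻¹ * D)⁻¹)) * C⁻¹ := by group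
      _ = C * (((C⁻¹ * D) * W * (C⁻¹ * D)⁻¹) * W) * C⁻¹ := by rw [this]
      _ = (D * W * D⁻¹) * (C * W * C⁻¹) := by group
  let A : Subgroup (FreeGroup X ⧸ relSub X 3) := Subgroup.normalClosure {W}
  have hAc : ∀ s ∈ A, ∀ t ∈ A, s * t = t * s := by
    have h := Subgroup.isMulCommutative_closure (k := S) (fun s hs t ht => hcomm s hs t ht)
    intro s hs t ht
    exact congrArg Subtype.val (h.is_comm.comm (⟨s, hs⟩ : A) (⟨t, ht⟩ : A))
  have hAn : A.Normal := Subgroup.normalClosure_normal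
  -- all elements of A come from F^3
  have hAF : ∀ z ∈ A, ∃ u ∈ powSub X 3, (u : FreeGroup X ⧸ relSub X 3) = z := by
    have : A ≤ (powSub X 3).map (QuotientGroup.mk' (relSub X 3)) := by
      have : ((powSub X 3).map (QuotientGroup.mk' (relSub X 3))).Normal :=
        Subgroup.Normal.map inferInstance _ (QuotientGroup.mk'_surjective _)
      apply Subgroup.normalClosure_le_normal
      rintro _ rfl
      exact ⟨w, hw, rfl⟩
    intro z hz
    obtain ⟨u, hu, e⟩ := this hz
    exact ⟨u, hu, e⟩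
  have norm : ∀ g : FreeGroup X, g ∉ powSub X 3 → ∀ C : FreeGroup X ⧸ relSub X 3, C = g →
      ∀ z ∈ A, (C * (C * z * C⁻¹) * C⁻¹) * (C * z * C⁻¹) * z = 1 := by
    intro g hg C hC z hz
    obtain ⟨u, hu, e⟩ := hAF z hz
    have h := nr g hg u hu C z hC e.symm
    have h1 : C * z * C⁻¹ ∈ A := hAn.conj_mem _ hz C
    have h2 : C * (C * z * C⁻¹) * C⁻¹ ∈ A := hAn.conj_mem _ h1 C
    rw [hAc _ h2 _ h1, ← h]
    group
  have fin := cube_of_norm A hAc (QuotientGroup.mk (FreeGroup.of x)) (QuotientGroup.mk (FreeGroup.of y))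
    (by
      rintro g (rfl | rfl | rfl | rfl) z hz
      · exact norm _ hA _ rfl z hz
      · exact norm _ hB _ rfl z hz
      · exact norm _ hAB _ rfl z hz
      · exact norm _ hAB' _ rfl z hz)
  exact fin W (Subgroup.subset_normalClosure rfl)

/-- For `n ≤ 3`, or one generator, the words of full order give a presentation of `B(m,n)`. -/
theorem rel_small (X : Type u) [Nonempty X] (n : ℕ) (hn : 1 ≤ n) (h : n ≤ 3 ∨ Subsingleton X) :
    relSub X n = powSub X n := by
  by_cases hs : Subsingleton X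
  · exact rel_subsingleton X n
  · have h3 : n ≤ 3 := h.resolve_right hs
    rw [not_subsingleton_iff_nontrivial] at hs
    obtain ⟨x, y, hxy⟩ := exists_pair_ne X
    interval_cases n
    · exact rel_one X
    · exact rel_two X x y hxy
    · exact rel_three X x y hxy

end Pool.Agent.Run7.h520.FO
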