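import Pool.Agent.Run7.h520.FO.Act
import Pool.Agent.Run7.h520.FO.Small

/-! Finite quotients, prime exponent. -/

set_option autoImplicit false

namespace Pool.Agent.Run7.h520.FO

universe u v

open Finset
open scoped IsMulCommutative

/-- A finite group with a normal subgroup `K` such that all elements outside `K` satisfy `g^p = 1`
and `G/K` is not cyclic (in the form `hnc`) is a `p`-group. -/
theorem isPGroup_of (G : Type v) [Group G] [Finite G] (p : ℕ) [hp : Fact p.Prime] (K : Subgroup G)
    [hK : K.Normal] (hpow : ∀ g, g ∉ K → g ^ p = 1)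
    (hnc : ∀ z : G, ∃ x : G, ∀ j : ℕ, x * z ^ j ∉ K) : IsPGroup p G := by
  classical
  rw [IsPGroup.iff_card]
  refine ⟨_, Nat.eq_prime_pow_of_unique_prime_dvd Nat.card_pos.ne' ?_⟩
  intro r hr hrd
  by_contra hrp
  have : Fact r.Prime := ⟨hr⟩
  obtain ⟨R⟩ : Nonempty (Sylow r G) := inferInstance
  have hcoprp : Nat.Coprime r p := (Nat.coprime_primes hr hp.out).mpr hrp
  -- elements of `R` killed by `p` are trivial
  have hR1 : ∀ g ∈ (R : Subgroup G), g ^ p = 1 → g = 1 := by
    intro g hg hgp
    obtain ⟨k, hk⟩ := R.2 ⟨g, hg⟩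
    have hk' : g ^ r ^ k = 1 := by
      have := congrArg Subtype.val hk
      simpa using this
    have h1 := orderOf_dvd_of_pow_eq_one hgp
    have h2 := orderOf_dvd_of_pow_eq_one hk'
    have h3 := Nat.dvd_gcd h2 h1
    rw [Nat.Coprime.pow_left k hcoprp] at h3
    exact orderOf_eq_one_iff.mp (Nat.dvd_one.mp h3)
  have hRK : (R : Subgroup G) ≤ K := by
    intro g hg
    by_contra hgK
    have := hR1 g hg (hpow g hgK)
    exact hgK (this ▸ one_mem K)
  have hRnt : Nontrivial (R : Subgroup G) := by
    rw [Subgroup.nontrivial_iff_ne_bot]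
    intro h
    have h1 := Sylow.ne_bot_of_dvd_card R hrd
    exact h1 h
  -- Frattini
  have hfr := Sylow.normalizer_sup_eq_top' R hRK
  set N : Subgroup G := Subgroup.normalizer (R : Set G) with hN
  let π : N →* G ⧸ K := (QuotientGroup.mk' K).comp N.subtype
  have hπ : Function.Surjective π := by
    intro q
    obtain ⟨g, rfl⟩ := QuotientGroup.mk_surjective q
    have hg : g ∈ N ⊔ K := by rw [hfr]; exact Subgroup.mem_top g
    rw [Subgroup.mem_sup_of_normal_right] at hg
    obtain ⟨y, hy, k, hk, rfl⟩ := hg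
    refine ⟨⟨y, hy⟩, ?_⟩
    show ((y : G) : G ⧸ K) = ((y * k : G) : G ⧸ K)
    rw [QuotientGroup.eq]
    rw [inv_mul_cancel_left]; exact hk
  obtain ⟨P⟩ : Nonempty (Sylow p N) := inferInstance
  have hQp : IsPGroup p (G ⧸ K) := by
    intro q
    obtain ⟨g, rfl⟩ := QuotientGroup.mk_surjective q
    refine ⟨1, ?_⟩
    rw [pow_one, ← QuotientGroup.mk_pow]
    by_cases hg : g ∈ K
    · exact (QuotientGroup.eq_one_iff _).mpr (pow_mem hg p)
    · rw [hpow g hg]; rfl
  have hPtop : (P : Subgroup N).map π = ⊤ := by
    have h1 := (P.mapSurjective hπ).3 (Q := ⊤) (hQp.to_subgroup ⊤) le_top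
    have h2 : (P.mapSurjective hπ : Subgroup (G ⧸ K)) = (P : Subgroup N).map π := rfl
    rw [← h2]; exact h1.symm
  have hlift : ∀ g : G, ∃ y : (P : Subgroup N), (g⁻¹ * ((y : N) : G)) ∈ K := by
    intro g
    have h1 : ((g : G) : G ⧸ K) ∈ (P : Subgroup N).map π := by rw [hPtop]; exact Subgroup.mem_top _
    obtain ⟨y, hy, hyg⟩ := h1
    refine ⟨⟨y, hy⟩, ?_⟩
    have h2 : ((g : G) : G ⧸ K) = ((y : G) : G ⧸ K) := hyg.symm
    exact QuotientGroup.eq.mp h2
  -- the action on the center of `R`
  have hconj : ∀ y ∈ N, ∀ g ∈ (R : Subgroup G), y * g * y⁻¹ ∈ (R : Subgroup G) := by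
    intro y hy g hg
    exact (Subgroup.mem_normalizer_iff.mp hy g).mp hg
  have hcomm : ∀ v : Subgroup.center (R : Subgroup G), ∀ g ∈ (R : Subgroup G),
      g * ((v : (R : Subgroup G)) : G) = ((v : (R : Subgroup G)) : G) * g := by
    intro v g hg
    have := (Subgroup.mem_center_iff.mp v.2) ⟨g, hg⟩
    exact congrArg Subtype.val this
  have hcen : ∀ y ∈ N, ∀ v : Subgroup.center (R : Subgroup G), ∀ g ∈ (R : Subgroup G),
      g * (y * ((v : (R : Subgroup G)) : G) * y⁻¹) = (y * ((v : (R : Subgroup G)) : G) * y⁻¹) * g := by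
    intro y hy v g hg
    have h1 := hconj y⁻¹ (inv_mem hy) g hg
    rw [inv_inv] at h1
    have h2 := hcomm v _ h1
    calc g * (y * ((v : (R : Subgroup G)) : G) * y⁻¹)
        = y * ((y⁻¹ * g * y) * ((v : (R : Subgroup G)) : G)) * y⁻¹ := by group
      _ = y * (((v : (R : Subgroup G)) : G) * (y⁻¹ * g * y)) * y⁻¹ := by rw [h2]
      _ = _ := by group
  let ρ : (P : Subgroup N) →* Monoid.End (Subgroup.center (R : Subgroup G)) :=
    { toFun := fun y =>
        { toFun := fun v => ⟨⟨((y : N) : G) * ((v : (R : Subgroup G)) : G) * ((y : N) : G)⁻¹,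
            hconj _ (y : N).2 _ (v : (R : Subgroup G)).2⟩, by
              rw [Subgroup.mem_center_iff]
              intro g
              apply Subtype.ext
              exact hcen _ (y : N).2 v g g.2⟩
          map_one' := by
            apply Subtype.ext; apply Subtype.ext
            show ((y : N) : G) * 1 * ((y : N) : G)⁻¹ = 1
            group
          map_mul' := by
            intro a b
            apply Subtype.ext; apply Subtype.ext
            show ((y : N) : G) * (((a : (R : Subgroup G)) : G) * ((b : (R : Subgroup G)) : G)) * ((y : N) : G)⁻¹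
              = (((y : N) : G) * ((a : (R : Subgroup G)) : G) * ((y : N) : G)⁻¹) *
                (((y : N) : G) * ((b : (R : Subgroup G)) : G) * ((y : N) : G)⁻¹)
            group }
      map_one' := by
        apply MonoidHom.ext
        intro v
        apply Subtype.ext; apply Subtype.ext
        show (1 : G) * ((v : (R : Subgroup G)) : G) * (1 : G)⁻¹ = ((v : (R : Subgroup G)) : G)
        group
      map_mul' := by
        intro a b
        apply MonoidHom.ext
        intro v
        apply Subtype.ext; apply Subtype.ext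
        show (((a : N) : G) * ((b : N) : G)) * ((v : (R : Subgroup G)) : G) * (((a : N) : G) * ((b : N) : G))⁻¹
          = ((a : N) : G) * (((b : N) : G) * ((v : (R : Subgroup G)) : G) * ((b : N) : G)⁻¹) * ((a : N) : G)⁻¹
        group }
  have hρ : ∀ y v, (((ρ y v : Subgroup.center (R : Subgroup G)) : (R : Subgroup G)) : G)
      = ((y : N) : G) * ((v : (R : Subgroup G)) : G) * ((y : N) : G)⁻¹ := fun y v => rfl
  let C : Set (P : Subgroup N) := {x | ((x : N) : G) ∈ K}
  have hC : ∀ z : (P : Subgroup N), ∃ x : (P : Subgroup N), ∀ j : ℕ, x * z ^ j ∉ C := by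
    intro z
    obtain ⟨x0, hx0⟩ := hnc ((z : N) : G)
    obtain ⟨y, hy⟩ := hlift x0
    refine ⟨y, fun j hj => hx0 j ?_⟩
    have h1 : ((x0 : G) : G ⧸ K) = (((y : N) : G) : G ⧸ K) := QuotientGroup.eq.mpr hy
    have h2 : ((y : N) : G) * ((z : N) : G) ^ j ∈ K := hj
    rw [← QuotientGroup.eq_one_iff] at h2 ⊢
    rw [QuotientGroup.mk_mul] at h2 ⊢
    rw [h1]; exact h2
  have hs : ∀ x ∉ C, ∀ v : Subgroup.center (R : Subgroup G), ∏ i ∈ range p, ρ (x ^ i) v = 1 := by
    intro x hx v
    have hxK : ((x : N) : G) ∉ K := hx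
    have hvK : ((v : (R : Subgroup G)) : G) ∈ K := hRK (v : (R : Subgroup G)).2
    have h1 : ∀ n : ℕ, (((∏ i ∈ range n, ρ (x ^ i) v : Subgroup.center (R : Subgroup G)) : (R : Subgroup G)) : G)
        * ((x : N) : G) ^ n = (((v : (R : Subgroup G)) : G) * ((x : N) : G)) ^ n := by
      intro n
      induction n with
      | zero => simp
      | succ n ih =>
        rw [prod_range_succ, pow_succ (((x : N) : G)) n, pow_succ (((v : (R : Subgroup G)) : G) * ((x : N) : G)) n, ← ih]
        show ((((∏ i ∈ range n, ρ (x ^ i) v : Subgroup.center (R : Subgroup G)) : (R : Subgroup G)) : G)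
          * (((x : N) : G) ^ n * ((v : (R : Subgroup G)) : G) * (((x : N) : G) ^ n)⁻¹)) * (((x : N) : G) ^ n * ((x : N) : G)) = _
        generalize (((∏ i ∈ range n, ρ (x ^ i) v : Subgroup.center (R : Subgroup G)) : (R : Subgroup G)) : G) = A
        group
    have h2 := h1 p
    have h3 : ((v : (R : Subgroup G)) : G) * ((x : N) : G) ∉ K := by
      intro h
      exact hxK ((Subgroup.mul_mem_cancel_left K hvK).mp h)
    rw [hpow _ hxK, hpow _ h3, mul_one] at h2
    apply Subtype.ext; apply Subtype.ext
    exact h2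
  have hfin := no_action p P.2 C hC _ (Subgroup.center (R : Subgroup G)) ρ le_rfl hs (by
    intro v hv
    apply Subtype.ext; apply Subtype.ext
    apply hR1 _ (v : (R : Subgroup G)).2
    have := congrArg (fun w : Subgroup.center (R : Subgroup G) => ((w : (R : Subgroup G)) : G)) hv
    simpa using this)
  have hcn : Nontrivial (Subgroup.center (R : Subgroup G)) := R.2.center_nontrivial
  obtain ⟨a, ha⟩ := exists_ne (1 : Subgroup.center (R : Subgroup G))
  exact ha (hfin a)

/-- The relations `v^p = 1` for the words `v` of full order imply `w^p = 1` for all `w` in every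
finite group. -/
theorem fin_prime (X : Type u) [Nonempty X] (p : ℕ) (hp : p.Prime) (G : Type v) [Group G] [Finite G]
    (f : FreeGroup X →* G) (hV : ∀ v, Full X p v → f v ^ p = 1) (w : FreeGroup X) : f w ^ p = 1 := by
  classical
  have : Fact p.Prime := ⟨hp⟩
  by_cases hsub : Subsingleton X
  · have h1 := rel_subsingleton X p
    have h2 : relSub X p ≤ f.ker := by
      apply Subgroup.normalClosure_le_normal
      rintro _ ⟨v, hv, rfl⟩
      show f (v ^ p) = 1
      rw [map_pow]; exact hV v hv
    have h3 : w ^ p ∈ f.ker := h2 (by rw [h1]; exact pow_mem_powSub p w)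
    rw [MonoidHom.mem_ker, map_pow] at h3
    exact h3
  have hXn : Nontrivial X := not_subsingleton_iff_nontrivial.mp hsub
  obtain ⟨x1, x2, hx12⟩ := hXn
  by_cases hkp : f.ker ≤ powSub X p
  · -- pass to the range
    set g : FreeGroup X →* f.range := f.rangeRestrict with hg
    have hgs : Function.Surjective g := f.rangeRestrict_surjective
    have hgker : ∀ u, g u = 1 → u ∈ powSub X p := by
      intro u hu
      apply hkp
      have := congrArg Subtype.val hu
      exact this
    let K : Subgroup f.range := (powSub X p).map g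
    have hKn : K.Normal := Subgroup.Normal.map inferInstance g hgs
    have hmem : ∀ u, g u ∈ K → u ∈ powSub X p := by
      rintro u ⟨u', hu', he⟩
      have h1 : g (u'⁻¹ * u) = 1 := by rw [map_mul, map_inv, he, inv_mul_cancel]
      have h2 := hgker _ h1
      have h3 := mul_mem hu' h2
      rwa [mul_inv_cancel_left] at h3
    have hpow : ∀ a : f.range, a ∉ K → a ^ p = 1 := by
      intro a ha
      obtain ⟨u, rfl⟩ := hgs a
      have hu : u ∉ powSub X p := fun h => ha ⟨u, h, rfl⟩
      apply Subtype.ext
      exact hV u (full_prime hp hu)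
    have hnc : ∀ z : f.range, ∃ x : f.range, ∀ j : ℕ, x * z ^ j ∉ K := by
      intro z
      obtain ⟨z', rfl⟩ := hgs z
      have key : ∃ x' : FreeGroup X, ∀ j : ℕ, x' * z' ^ j ∉ powSub X p := by
        by_cases ha : ex p x1 z' = 1
        · refine ⟨FreeGroup.of x1, fun j hj => ?_⟩
          have h1 : ex p x1 (FreeGroup.of x1 * z' ^ j) = 1 := powSub_le_ker p x1 hj
          rw [map_mul, map_pow, ha, one_pow, mul_one, ex_self] at h1
          have h2 := congrArg Multiplicative.toAdd h1
          have h3 : (1 : ZMod p) = 0 := h2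
          exact one_ne_zero h3
        · refine ⟨FreeGroup.of x2, fun j hj => ?_⟩
          have h1 : ex p x1 (FreeGroup.of x2 * z' ^ j) = 1 := powSub_le_ker p x1 hj
          have h1' : ex p x2 (FreeGroup.of x2 * z' ^ j) = 1 := powSub_le_ker p x2 hj
          rw [map_mul, map_pow, ex_other p hx12.symm, one_mul] at h1
          rw [map_mul, map_pow, ex_self] at h1'
          have h2 := congrArg Multiplicative.toAdd h1
          have h2' := congrArg Multiplicative.toAdd h1'
          rw [toAdd_pow, toAdd_one, nsmul_eq_mul] at h2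
          rw [toAdd_mul, toAdd_pow, toAdd_one, nsmul_eq_mul, toAdd_ofAdd] at h2'
          rcases mul_eq_zero.mp h2 with h3 | h3
          · rw [h3, zero_mul, add_zero] at h2'
            exact one_ne_zero h2'
          · exact ha (Multiplicative.toAdd.injective h3)
      obtain ⟨x', hx'⟩ := key
      refine ⟨g x', fun j hj => hx' j (hmem _ ?_)⟩
      rw [map_mul, map_pow]; exact hj
    have hPG := isPGroup_of f.range p K hpow hnc
    have : Group.IsNilpotent f.range := hPG.isNilpotent
    have h5 := nilp X p hp.one_lt.le f.range g (fun v hv => by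
      apply Subtype.ext
      exact hV v hv) w
    exact congrArg Subtype.val h5
  · obtain ⟨u, hu, hu'⟩ := SetLike.not_le_iff_exists.mp hkp
    by_cases hw : w ∈ powSub X p
    · have h1 : w * u ∉ powSub X p := fun h => hu' ((Subgroup.mul_mem_cancel_left _ hw).mp h)
      have h2 := hV _ (full_prime hp h1)
      rw [map_mul, MonoidHom.mem_ker.mp hu, mul_one] at h2
      exact h2
    · exact hV w (full_prime hp hw)

end Pool.Agent.Run7.h520.FO
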