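import Mathlib

set_option autoImplicit false

namespace Pool.Agent.Run7.h520.FO

universe u v

open scoped commutatorElement

/-- The subgroup `F^n` generated by all `n`-th powers of the free group `F` on `X`, so that
`B(m,n) = F / F^n`. -/
def powSub (X : Type u) (n : ℕ) : Subgroup (FreeGroup X) :=
  Subgroup.normalClosure (Set.range fun w : FreeGroup X => w ^ n)

/-- The image of `v` in `B(m,n)` has order exactly `n`. -/
def Full (X : Type u) (n : ℕ) (v : FreeGroup X) : Prop :=
  ∀ d : ℕ, d ∣ n → d ≠ n → v ^ d ∉ powSub X n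

instance (X : Type u) (n : ℕ) : (powSub X n).Normal := by unfold powSub; infer_instance

theorem pow_mem_powSub {X : Type u} (n : ℕ) (w : FreeGroup X) : w ^ n ∈ powSub X n :=
  Subgroup.subset_normalClosure ⟨w, rfl⟩

/-- the exponent sum of `x` modulo `n` -/
noncomputable def ex {X : Type u} (n : ℕ) (x : X) : FreeGroup X →* Multiplicative (ZMod n) := by
  classical
  exact FreeGroup.lift fun y => if y = x then Multiplicative.ofAdd 1 else 1

theorem ex_self {X : Type u} (n : ℕ) (x : X) : ex n x (FreeGroup.of x) = Multiplicative.ofAdd 1 := by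
  classical
  simp [ex]

theorem ex_other {X : Type u} (n : ℕ) {x y : X} (h : y ≠ x) : ex n x (FreeGroup.of y) = 1 := by
  classical
  simp [ex, h]

theorem powSub_le_ker {X : Type u} (n : ℕ) (x : X) : powSub X n ≤ (ex n x).ker := by
  apply Subgroup.normalClosure_le_normal
  rintro _ ⟨w, rfl⟩
  show ex n x (w ^ n) = 1
  rw [map_pow]
  apply Multiplicative.toAdd.injective
  simp

theorem full_of {X : Type u} {n : ℕ} (x : X) : Full X n (FreeGroup.of x) := by
  intro d hd hdn hm
  have h := powSub_le_ker n x hm
  have h' : ex n x (FreeGroup.of x ^ d) = 1 := h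
  rw [map_pow, ex_self] at h'
  have h2 : ((d : ℕ) : ZMod n) = 0 := by
    have := congrArg Multiplicative.toAdd h'
    simpa using this
  rw [ZMod.natCast_eq_zero_iff] at h2
  exact hdn (Nat.dvd_antisymm hd h2)

theorem central_pow {G : Type v} [Group G] {g h c : G} (hc : ∀ x, c * x = x * c)
    (e : g * h = c * h * g) (k : ℕ) : g ^ k * h = c ^ k * h * g ^ k := by
  have hck : ∀ (j : ℕ) (x : G), c ^ j * x = x * c ^ j := fun j x =>
    (Commute.pow_left (show Commute c x from hc x) j).eq
  induction k with
  | zero => simp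
  | succ k ih =>
    calc g ^ (k + 1) * h = g ^ k * (g * h) := by rw [pow_succ, mul_assoc]
      _ = g ^ k * (c * h * g) := by rw [e]
      _ = c * (g ^ k * h) * g := by
        rw [show g ^ k * (c * h * g) = (g ^ k * c) * h * g by group, ← hc (g ^ k)]; group
      _ = c * (c ^ k * h * g ^ k) * g := by rw [ih]
      _ = c ^ (k + 1) * h * g ^ (k + 1) := by rw [pow_succ' c, pow_succ g]; group

/-- In a nilpotent group elements of coprime orders commute. -/
theorem commute_coprime (G : Type v) [Group G] [Group.IsNilpotent G] :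
    ∀ (a b : ℕ), Nat.Coprime a b → ∀ g h : G, g ^ a = 1 → h ^ b = 1 → g * h = h * g := by
  refine Group.nilpotent_center_quotient_ind (P := fun (G : Type v) _ _ =>
    ∀ (a b : ℕ), Nat.Coprime a b → ∀ g h : G, g ^ a = 1 → h ^ b = 1 → g * h = h * g) G ?_ ?_
  · intro G _ _ a b _ g h _ _
    exact Subsingleton.elim _ _
  · intro G _ _ ih a b hab g h hg hh
    have h1 := ih a b hab (QuotientGroup.mk g) (QuotientGroup.mk h)
      (by rw [← QuotientGroup.mk_pow, hg]; rfl) (by rw [← QuotientGroup.mk_pow, hh]; rfl)
    set c := g * h * g⁻¹ * h⁻¹ with hc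
    have hcz : c ∈ Subgroup.center G := by
      rw [← QuotientGroup.eq_one_iff]
      have : ((c : G) : G ⧸ Subgroup.center G) = (g : G ⧸ Subgroup.center G) * h * (g : G ⧸ Subgroup.center G)⁻¹ * (h : G ⧸ Subgroup.center G)⁻¹ := by
        rw [hc]; rfl
      rw [this, h1]; group
    have hcc : ∀ x, c * x = x * c := fun x => ((Subgroup.mem_center_iff.mp hcz) x).symm
    have e1 : g * h = c * h * g := by rw [hc]; group
    have e2 : h * g = c⁻¹ * g * h := by rw [hc]; group
    have hci : ∀ x, c⁻¹ * x = x * c⁻¹ := fun x =>
      (Commute.inv_left (show Commute c x from hcc x)).eq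
    have p1 := central_pow hcc e1 a
    have p2 := central_pow hci e2 b
    rw [hg] at p1
    rw [hh] at p2
    have q1 : c ^ a = 1 := by
      have : (1 : G) * h = c ^ a * h * 1 := p1
      rw [one_mul, mul_one] at this
      exact (mul_eq_right.mp this.symm)
    have q2 : c ^ b = 1 := by
      have : (1 : G) * g = c⁻¹ ^ b * g * 1 := p2
      rw [one_mul, mul_one] at this
      have := (mul_eq_right.mp this.symm)
      rwa [inv_pow, inv_eq_one] at this
    have q3 : c = 1 := by
      have := orderOf_dvd_of_pow_eq_one q1
      have h2 := orderOf_dvd_of_pow_eq_one q2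
      have h3 := Nat.dvd_gcd this h2
      rw [hab] at h3
      exact orderOf_eq_one_iff.mp (Nat.dvd_one.mp h3)
    rw [e1, q3, one_mul]

/-- Powers and the lower central series of a group generated by elements of exponent `n`. -/
theorem lcs_pow {X : Type u} {n : ℕ} {G : Type v} [Group G] (f : FreeGroup X →* G)
    (hf : Function.Surjective f) (hx : ∀ x, f (FreeGroup.of x) ^ n = 1) :
    ∀ i : ℕ, ∀ g ∈ (⊤ : Subgroup G).lowerCentralSeries i,
      g ^ n ∈ (⊤ : Subgroup G).lowerCentralSeries (i + 1) := by
  intro i
  induction i with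
  | zero =>
    intro g _
    obtain ⟨w, rfl⟩ := hf g
    rw [zero_add, Subgroup.top_lowerCentralSeries_one, ← Abelianization.ker_of]
    show Abelianization.of (f w ^ n) = 1
    rw [map_pow]
    clear * - hx
    induction w using FreeGroup.induction_on with
    | C1 => simp
    | of x => rw [← map_pow, hx, map_one]
    | inv_of x ih => rw [map_inv, map_inv, inv_pow, ih, inv_one]
    | mul a b ha hb => rw [map_mul, map_mul, mul_pow, ha, hb, one_mul]
  | succ i ih =>
    intro y hy
    set L := (⊤ : Subgroup G).lowerCentralSeries (i + 1 + 1) with hL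
    have hLn : L.Normal := by rw [hL]; infer_instance
    have hcen : ∀ y ∈ (⊤ : Subgroup G).lowerCentralSeries (i + 1), ∀ x : G,
        (y : G ⧸ L) * x = x * y := by
      intro y hy x
      have h1 : ⁅y, x⁆ ∈ L := by
        rw [hL, Subgroup.lowerCentralSeries_succ _ (i + 1)]
        exact Subgroup.commutator_mem_commutator hy (Subgroup.mem_top x)
      have h2 : ((⁅y, x⁆ : G) : G ⧸ L) = 1 := (QuotientGroup.eq_one_iff _).mpr h1
      rw [commutatorElement_def] at h2
      have h3 : (y : G ⧸ L) * x * (y : G ⧸ L)⁻¹ * (x : G ⧸ L)⁻¹ = 1 := h2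
      have h4 := mul_inv_eq_one.mp h3
      exact mul_inv_eq_iff_eq_mul.mp h4
    suffices h : ((y : G) : G ⧸ L) ^ n = 1 by
      rw [← QuotientGroup.mk_pow, QuotientGroup.eq_one_iff] at h
      exact h
    have hy' := hy
    rw [Subgroup.mem_lowerCentralSeries_succ_iff] at hy
    have hle : ∀ z ∈ Subgroup.closure {x | ∃ p ∈ (⊤ : Subgroup G).lowerCentralSeries i,
        ∃ q ∈ (⊤ : Subgroup G), ⁅p, q⁆ = x}, z ∈ (⊤ : Subgroup G).lowerCentralSeries (i + 1) :=
      fun z hz => (Subgroup.mem_lowerCentralSeries_succ_iff _ i z).mpr hz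
    clear hy'
    induction hy using Subgroup.closure_induction with
    | mem z hz =>
      obtain ⟨p, hp, q, _, rfl⟩ := hz
      have hpq : ⁅p, q⁆ ∈ (⊤ : Subgroup G).lowerCentralSeries (i + 1) :=
        hle _ (Subgroup.subset_closure ⟨p, hp, q, Subgroup.mem_top q, rfl⟩)
      have hc : ∀ x : G ⧸ L, ((⁅p, q⁆ : G) : G ⧸ L) * x = x * ((⁅p, q⁆ : G) : G ⧸ L) := by
        intro x
        obtain ⟨x, rfl⟩ := QuotientGroup.mk_surjective x
        exact hcen _ hpq x
      have e : (p : G ⧸ L) * q = ((⁅p, q⁆ : G) : G ⧸ L) * q * p := by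
        rw [← QuotientGroup.mk_mul, ← QuotientGroup.mk_mul, ← QuotientGroup.mk_mul]
        congr 1
        rw [commutatorElement_def]; group
      have h1 := central_pow hc e n
      have h2 := hcen _ (ih p hp) q
      rw [QuotientGroup.mk_pow] at h2
      rw [h2, mul_assoc] at h1
      exact (mul_eq_right.mp h1.symm)
    | one => simp
    | mul a b ha hb iha ihb =>
      rw [QuotientGroup.mk_mul, Commute.mul_pow (show Commute (a : G ⧸ L) b from hcen a (hle a ha) b),
        iha, ihb, one_mul]
    | inv a ha iha => rw [QuotientGroup.mk_inv, inv_pow, iha, inv_one]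

theorem torsion {X : Type u} {n : ℕ} {G : Type v} [Group G] [hG : Group.IsNilpotent G]
    (f : FreeGroup X →* G)
    (hf : Function.Surjective f) (hx : ∀ x, f (FreeGroup.of x) ^ n = 1) :
    ∃ c : ℕ, ∀ g : G, g ^ n ^ c = 1 := by
  obtain ⟨c, hc⟩ := Subgroup.nilpotent_iff_lowerCentralSeries.mp hG
  refine ⟨c, fun g => ?_⟩
  have h : ∀ i, g ^ n ^ i ∈ (⊤ : Subgroup G).lowerCentralSeries i := by
    intro i
    induction i with
    | zero => simp
    | succ i ih => rw [pow_succ, pow_mul]; exact lcs_pow f hf hx i _ ih
  have := h c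
  rw [hc] at this
  exact Subgroup.mem_bot.mp this

/-- The relations `v^n = 1` for the words `v` of full order imply `w^n = 1` for all `w` in every
nilpotent quotient. -/
theorem nilp_surj (X : Type u) [Nonempty X] (n : ℕ) (hn : 1 ≤ n) (G : Type v) [Group G]
    [Group.IsNilpotent G] : ∀ f : FreeGroup X →* G, Function.Surjective f →
      (∀ v, Full X n v → f v ^ n = 1) → ∀ w, f w ^ n = 1 := by
  refine Group.nilpotent_center_quotient_ind (P := fun (G : Type v) _ _ =>
    ∀ f : FreeGroup X →* G, Function.Surjective f →
      (∀ v, Full X n v → f v ^ n = 1) → ∀ w, f w ^ n = 1) G ?_ ?_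
  · intro G _ _ f _ _ w
    exact Subsingleton.elim _ _
  · intro G _ _ ih f hf hV w0
    have ih' : ∀ w, f w ^ n ∈ Subgroup.center G := by
      intro w
      have h := ih ((QuotientGroup.mk' (Subgroup.center G)).comp f)
        ((QuotientGroup.mk'_surjective _).comp hf) (fun v hv => by
          show (QuotientGroup.mk' (Subgroup.center G)) (f v) ^ n = 1
          rw [← map_pow, hV v hv, map_one]) w
      have h' : (QuotientGroup.mk' (Subgroup.center G)) (f w) ^ n = 1 := h
      rw [← map_pow] at h'
      exact (QuotientGroup.eq_one_iff _).mp h'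
    have hx : ∀ x, f (FreeGroup.of x) ^ n = 1 := fun x => hV _ (full_of x)
    obtain ⟨c, hc⟩ := torsion f hf hx
    have hKZ : ∀ u ∈ powSub X n, f u ∈ Subgroup.center G := by
      intro u hu
      have : powSub X n ≤ (Subgroup.center G).comap f := by
        apply Subgroup.normalClosure_le_normal
        rintro _ ⟨w, rfl⟩
        show f (w ^ n) ∈ Subgroup.center G
        rw [map_pow]; exact ih' w
      exact this hu
    have cen : ∀ u ∈ powSub X n, ∀ y : G, f u * y = y * f u := fun u hu y =>
      ((Subgroup.mem_center_iff.mp (hKZ u hu)) y).symm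
    -- divisibility by the primes dividing `n`
    have hdiv : ∀ p : ℕ, p.Prime → p ∣ n → ∀ u ∈ powSub X n, ∃ u' ∈ powSub X n, f u = f u' ^ p := by
      intro p hp hpn
      let P : Subgroup (FreeGroup X) :=
        { carrier := {u | ∃ u' ∈ powSub X n, f u = f u' ^ p}
          one_mem' := ⟨1, one_mem _, by simp⟩
          mul_mem' := by
            rintro a b ⟨a', ha', ha⟩ ⟨b', hb', hb⟩
            refine ⟨a' * b', mul_mem ha' hb', ?_⟩
            rw [map_mul, map_mul, ha, hb,
              Commute.mul_pow (show Commute (f a') (f b') from cen a' ha' _)]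
          inv_mem' := by
            rintro a ⟨a', ha', ha⟩
            refine ⟨a'⁻¹, inv_mem ha', ?_⟩
            rw [map_inv, map_inv, ha, inv_pow] }
      have hPmem : ∀ u, u ∈ P ↔ ∃ u' ∈ powSub X n, f u = f u' ^ p := fun u => Iff.rfl
      have hPn : P.Normal := by
        constructor
        rintro a ⟨a', ha', ha⟩ g
        refine ⟨g * a' * g⁻¹, Subgroup.Normal.conj_mem inferInstance a' ha' g, ?_⟩
        have e1 : f (g * a' * g⁻¹) = f a' := by
          rw [map_mul, map_mul, map_inv, ← cen a' ha' (f g), mul_inv_cancel_right]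
        have hpc : f g * f a' ^ p = f a' ^ p * f g :=
          ((Commute.pow_left (show Commute (f a') (f g) from cen a' ha' _) p).eq).symm
        rw [e1, map_mul, map_mul, map_inv, ha, hpc, mul_inv_cancel_right]
      have key : ∀ w, w ^ n ∈ P := by
        intro w
        obtain ⟨x⟩ := ‹Nonempty X›
        obtain ⟨a, n', hn'p, hnn'⟩ := Nat.exists_eq_pow_mul_and_not_dvd (show n ≠ 0 by omega) p hp.ne_one
        have ha : a ≠ 0 := by
          rintro rfl
          rw [pow_zero, one_mul] at hnn'
          exact hn'p (hnn' ▸ hpn)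
        have hcop : Nat.Coprime (p ^ a) n' :=
          Nat.Coprime.pow_left a ((Nat.Prime.coprime_iff_not_dvd hp).mpr hn'p)
        obtain ⟨α, hα1, hα2⟩ := Nat.chineseRemainder hcop 1 0
        obtain ⟨β, hβ1, hβ2⟩ := Nat.chineseRemainder hcop 0 1
        have hα2' : n' ∣ α := (Nat.modEq_zero_iff_dvd).mp hα2
        have hβ1' : p ^ a ∣ β := (Nat.modEq_zero_iff_dvd).mp hβ1
        obtain ⟨α', hα'⟩ := hα2'
        obtain ⟨β', hβ'⟩ := hβ1'
        have hcopα : Nat.Coprime α p := by
          rw [Nat.coprime_comm, Nat.Prime.coprime_iff_not_dvd hp]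
          intro hd
          have h1 : α ≡ 1 [MOD p] := hα1.of_dvd (dvd_pow_self p ha)
          have h2 : α ≡ 0 [MOD p] := (Nat.modEq_zero_iff_dvd).mpr hd
          have h3 : 0 ≡ 1 [MOD p] := h2.symm.trans h1
          have h4 := (Nat.modEq_iff_dvd' (Nat.zero_le 1)).mp h3
          exact hp.one_lt.ne' (Nat.dvd_one.mp h4)
        set g := f w ^ α with hg
        set h := f (FreeGroup.of x) ^ β with hh
        have hgp : g ^ p ^ a = f (w ^ n) ^ α' := by
          rw [hg, ← pow_mul, map_pow, ← pow_mul, hα', hnn']
          congr 1; ring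
        have hgZ : g ^ p ^ a ∈ Subgroup.center G := by
          rw [hgp]; exact pow_mem (hKZ _ (pow_mem_powSub n w)) _
        have hhn : h ^ n' = 1 := by
          rw [hh, ← pow_mul, hβ', show p ^ a * β' * n' = (p ^ a * n') * β' by ring, ← hnn', pow_mul,
            hx, one_pow]
        have hcomm : g * h = h * g := by
          have h1 := commute_coprime (G ⧸ Subgroup.center G) (p ^ a) n' hcop
            (QuotientGroup.mk g) (QuotientGroup.mk h)
            (by rw [← QuotientGroup.mk_pow]; exact (QuotientGroup.eq_one_iff _).mpr hgZ)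
            (by rw [← QuotientGroup.mk_pow, hhn]; rfl)
          set c := g * h * g⁻¹ * h⁻¹ with hcdef
          have hcz : c ∈ Subgroup.center G := by
            rw [← QuotientGroup.eq_one_iff]
            have : ((c : G) : G ⧸ Subgroup.center G) = (g : G ⧸ Subgroup.center G) * h * (g : G ⧸ Subgroup.center G)⁻¹ * (h : G ⧸ Subgroup.center G)⁻¹ := by
              rw [hcdef]; rfl
            rw [this, h1]; group
          have hcc : ∀ x, c * x = x * c := fun x => ((Subgroup.mem_center_iff.mp hcz) x).symm
          have e1 : g * h = c * h * g := by rw [hcdef]; group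
          have e2 : h * g = c⁻¹ * g * h := by rw [hcdef]; group
          have hci : ∀ x, c⁻¹ * x = x * c⁻¹ := fun x =>
            (Commute.inv_left (show Commute c x from hcc x)).eq
          have p1 := central_pow hcc e1 (p ^ a)
          have p2 := central_pow hci e2 n'
          rw [((Subgroup.mem_center_iff.mp hgZ) h).symm, mul_assoc] at p1
          rw [hhn] at p2
          have q1 : c ^ p ^ a = 1 := mul_eq_right.mp p1.symm
          have q2 : c ^ n' = 1 := by
            have : (1 : G) * g = c⁻¹ ^ n' * g * 1 := p2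
            rw [one_mul, mul_one] at this
            have := (mul_eq_right.mp this.symm)
            rwa [inv_pow, inv_eq_one] at this
          have q3 : c = 1 := by
            have := orderOf_dvd_of_pow_eq_one q1
            have h2 := orderOf_dvd_of_pow_eq_one q2
            have h3 := Nat.dvd_gcd this h2
            rw [hcop] at h3
            exact orderOf_eq_one_iff.mp (Nat.dvd_one.mp h3)
          rw [e1, q3, one_mul]
        have hv : f (w ^ α * FreeGroup.of x ^ β) ^ n = f ((w ^ n) ^ α) := by
          rw [map_mul, map_pow, map_pow, Commute.mul_pow (show Commute (f w ^ α) (f (FreeGroup.of x) ^ β) from hcomm)]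
          have : (f (FreeGroup.of x) ^ β) ^ n = 1 := by
            rw [hnn', mul_comm, pow_mul, hhn, one_pow]
          rw [this, mul_one, map_pow, map_pow, ← pow_mul, ← pow_mul, mul_comm]
        have hmem : (w ^ n) ^ α ∈ P := by
          by_cases hfull : Full X n (w ^ α * FreeGroup.of x ^ β)
          · refine ⟨1, one_mem _, ?_⟩
            rw [← hv, hV _ hfull]; simp
          · unfold Full at hfull
            push Not at hfull
            obtain ⟨d, hd, hdn, hdm⟩ := hfull
            -- `n'` divides `d`
            have h1 : ex n x ((w ^ α * FreeGroup.of x ^ β) ^ d) = 1 := powSub_le_ker n x hdm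
            rw [map_pow, map_mul, map_pow, map_pow, ex_self] at h1
            set e := Multiplicative.toAdd (ex n x w) with he
            have h2 : (d : ZMod n) * ((α : ZMod n) * e + (β : ZMod n)) = 0 := by
              have := congrArg Multiplicative.toAdd h1
              simpa [he, nsmul_eq_mul, mul_add] using this
            have hn'n : n' ∣ n := ⟨p ^ a, by rw [hnn']; ring⟩
            have h3 : (d : ZMod n') = 0 := by
              have := congrArg (ZMod.castHom hn'n (ZMod n')) h2
              rw [map_mul, map_add, map_mul, map_natCast, map_natCast, map_natCast, map_zero] at this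
              have hα0 : ((α : ℕ) : ZMod n') = 0 := (ZMod.natCast_eq_zero_iff _ _).mpr ⟨α', hα'⟩
              have hβ1'' : ((β : ℕ) : ZMod n') = 1 := by
                have := (ZMod.natCast_eq_natCast_iff _ _ _).mpr hβ2
                simpa using this
              rw [hα0, hβ1'', zero_mul, zero_add, mul_one] at this
              exact this
            have h4 : n' ∣ d := (ZMod.natCast_eq_zero_iff _ _).mp h3
            obtain ⟨d', rfl⟩ := h4
            have hn'0 : 0 < n' := by
              rcases Nat.eq_zero_or_pos n' with h0 | h0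
              · rw [h0, mul_zero] at hnn'; omega
              · exact h0
            have h5 : d' ∣ p ^ a := by
              rw [hnn', mul_comm (p ^ a)] at hd
              exact Nat.dvd_of_mul_dvd_mul_left hn'0 hd
            obtain ⟨b, hb, rfl⟩ := (Nat.dvd_prime_pow hp).mp h5
            have hba : b ≠ a := by
              rintro rfl
              exact hdn (by rw [hnn']; ring)
            obtain ⟨j, hj⟩ : ∃ j, n = (n' * p ^ b * j) * p := by
              refine ⟨p ^ (a - 1 - b), ?_⟩
              have : a = b + (a - 1 - b) + 1 := by omega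
              calc n = p ^ (b + (a - 1 - b) + 1) * n' := by rw [← this]; exact hnn'
                _ = _ := by rw [pow_succ, pow_add]; ring
            refine ⟨((w ^ α * FreeGroup.of x ^ β) ^ (n' * p ^ b)) ^ j, pow_mem hdm j, ?_⟩
            rw [← hv, ← map_pow, ← map_pow, ← pow_mul, ← pow_mul,
              show n' * p ^ b * (j * p) = n by rw [← mul_assoc]; exact hj.symm]
        have hmemp : (w ^ n) ^ p ∈ P := ⟨w ^ n, pow_mem_powSub n w, by rw [map_pow]⟩
        -- Bezout
        have hb := Nat.gcd_eq_gcd_ab α p
        rw [hcopα] at hb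
        have : w ^ n = ((w ^ n) ^ α) ^ (Nat.gcdA α p) * ((w ^ n) ^ p) ^ (Nat.gcdB α p) := by
          rw [← zpow_natCast (w ^ n) α, ← zpow_natCast (w ^ n) p, ← zpow_mul, ← zpow_mul, ← zpow_add,
            ← hb, Nat.cast_one, zpow_one]
        rw [this]
        exact mul_mem (zpow_mem hmem _) (zpow_mem hmemp _)
      have : powSub X n ≤ P := by
        apply Subgroup.normalClosure_le_normal
        rintro _ ⟨w, rfl⟩
        exact key w
      exact fun u hu => this hu
    -- divisibility by all numbers whose primes divide `n`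
    have hdivm : ∀ m : ℕ, 1 ≤ m → (∀ p : ℕ, p.Prime → p ∣ m → p ∣ n) →
        ∀ u ∈ powSub X n, ∃ u' ∈ powSub X n, f u = f u' ^ m := by
      intro m
      induction m using Nat.strong_induction_on with
      | _ m ihm =>
        intro hm hpm u hu
        by_cases h1 : m = 1
        · exact ⟨u, hu, by rw [h1, pow_one]⟩
        · have hp := Nat.minFac_prime h1
          obtain ⟨m', hm'⟩ := Nat.minFac_dvd m
          have hm'0 : 1 ≤ m' := by
            rcases Nat.eq_zero_or_pos m' with h0 | h0
            · rw [h0, mul_zero] at hm'; omega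
            · exact h0
          have hlt : m' < m := by
            have := hp.two_le
            calc m' < m.minFac * m' := by nlinarith
              _ = m := hm'.symm
          obtain ⟨u1, hu1, e1⟩ := ihm m' hlt hm'0
            (fun p hp' hd => hpm p hp' (hd.trans ⟨m.minFac, by rw [mul_comm]; exact hm'⟩)) u hu
          obtain ⟨u2, hu2, e2⟩ := hdiv _ hp (hpm _ hp (Nat.minFac_dvd m)) u1 hu1
          refine ⟨u2, hu2, ?_⟩
          rw [e1, e2, ← pow_mul, ← hm']
    obtain ⟨u', _, hu'⟩ := hdivm (n ^ c) (Nat.one_le_iff_ne_zero.mpr (pow_ne_zero _ (by omega)))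
      (fun p hp hd => hp.dvd_of_dvd_pow hd) _ (pow_mem_powSub n w0)
    rw [map_pow] at hu'
    rw [hu', hc]

/-- The same for all homomorphisms to a nilpotent group. -/
theorem nilp (X : Type u) [Nonempty X] (n : ℕ) (hn : 1 ≤ n) (G : Type v) [Group G]
    [Group.IsNilpotent G] (f : FreeGroup X →* G)
    (hV : ∀ v, Full X n v → f v ^ n = 1) (w : FreeGroup X) : f w ^ n = 1 := by
  have h := nilp_surj X n hn f.range f.rangeRestrict f.rangeRestrict_surjective (fun v hv => by
    apply Subtype.ext
    rw [Subgroup.coe_pow, MonoidHom.coe_rangeRestrict, hV v hv]; rfl) w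
  have := congrArg Subtype.val h
  rw [Subgroup.coe_pow, MonoidHom.coe_rangeRestrict] at this
  exact this

end Pool.Agent.Run7.h520.FO
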